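import Pool.Agent.Helper4.SQ.GoalsR2

/-!
Project SQ (MP_bb32d1_al), stage B, part Q: the goal CHM (the currents on the characters).
-/

set_option autoImplicit false
set_option linter.unusedSectionVars false
set_option maxHeartbeats 400000

namespace Pool.Agent.Helper48.SQ

noncomputable section

open Matrix Pool.Agent.Helper19.SQ Pool.Agent.Helper34.SQ Pool.Agent.Helper41.SQ
  Pool.Agent.Helper4.SQ

/-! ### the polynomials -/

theorem yc_eq (q : ℂ) {l : ℕ} (c : ZMod l) (h : qz q (2 * c) ≠ 0) :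
    yc q c = Polynomial.C ((qz q (2 * c))⁻¹) * (Polynomial.X - Polynomial.C (qz q (2 * c))) := by
  rw [yc, mul_sub, ← Polynomial.C_mul, inv_mul_cancel₀ h, Polynomial.C_1]

theorem dvd_pow_pc {l K r : ℕ} {q : ℂ} (c : ZMod l) (p : Polynomial ℂ) (hr : 0 < r)
    (h : qz q (2 * c) ≠ 0)
    (hd : (Polynomial.X ^ l - 1 : Polynomial ℂ) ^ K
      ∣ (Polynomial.X - Polynomial.C (qz q (2 * c))) ^ K * p) :
    (Polynomial.X ^ l - 1 : Polynomial ℂ) ^ K ∣ (p * yc q c ^ r) ^ K := by
  rcases Nat.eq_zero_or_pos K with rfl | hK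
  · simp
  · refine dvd_trans hd ?_
    rw [mul_pow, mul_comm]
    refine mul_dvd_mul (dvd_pow_self p hK.ne') ?_
    rw [← pow_mul, yc_eq q c h, mul_pow]
    refine Dvd.dvd.mul_left (pow_dvd_pow _ ?_) _
    exact Nat.le_mul_of_pos_left K hr

theorem pev_of_dvd {B : Type} [Ring B] [Algebra ℂ B] {κ : Type} [Fintype κ] [DecidableEq κ]
    {l K : ℕ} {X : Matrix κ κ B} (hX : (X ^ l - 1) ^ K = 0) {h : Polynomial ℂ}
    (hd : (Polynomial.X ^ l - 1 : Polynomial ℂ) ^ K ∣ h) : pev h X = 0 := by
  obtain ⟨g, rfl⟩ := hd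
  rw [pev, map_mul, map_pow, map_sub, map_pow, Polynomial.aeval_X, map_one, hX, zero_mul]

theorem pev_pow {B : Type} [Ring B] [Algebra ℂ B] {κ : Type} [Fintype κ] [DecidableEq κ]
    (X : Matrix κ κ B) (h : Polynomial ℂ) (k : ℕ) : pev (h ^ k) X = pev h X ^ k := by
  rw [pev, pev, map_pow]

/-! ### the dual side -/

theorem vv_zero {B : Type} [Ring B] [Algebra ℂ B] {κ : Type} [Fintype κ] [DecidableEq κ]
    (Hs : B →ₐ[ℂ] Matrix κ κ B) : vv Hs 0 = 0 := by
  ext K I
  rw [vv_apply]
  simp

theorem vv_pow {B : Type} [Ring B] [Algebra ℂ B] {κ : Type} [Fintype κ] [DecidableEq κ]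
    (H Hs : B →ₐ[ℂ] Matrix κ κ B)
    (h2 : ∀ Z : Matrix κ κ B, (∀ a, Z * H a = H a * Z) →
      ∀ Z', vv Hs (Z * Z') = vv Hs Z' * vv Hs Z)
    (h3 : vv Hs 1 = 1) (Z : Matrix κ κ B) (hZ : ∀ a, Z * H a = H a * Z) (k : ℕ) :
    vv Hs (Z ^ k) = vv Hs Z ^ k := by
  induction k with
  | zero => rw [pow_zero, pow_zero, h3]
  | succ k ih => rw [pow_succ', h2 Z hZ, ih, pow_succ]

/-! ### combinatorics of weights -/

section Comb

variable {N l : ℕ}

theorem addE_subE (lam : Fin (N + 1) → ZMod l) (j : Fin (N + 1)) :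
    addE (subE lam j) j = lam := by
  funext i
  simp [addE, subE]

theorem subE_addE (lam : Fin (N + 1) → ZMod l) (j : Fin (N + 1)) :
    subE (addE lam j) j = lam := by
  funext i
  simp [addE, subE]

/-- the bijection `lam ↦ lam - eps_j`. -/
def eqE (j : Fin (N + 1)) : (Fin (N + 1) → ZMod l) ≃ (Fin (N + 1) → ZMod l) where
  toFun lam := subE lam j
  invFun mu := addE mu j
  left_inv lam := addE_subE lam j
  right_inv mu := subE_addE mu j

theorem ne_succ (hl : 3 ≤ l) (c : ZMod l) : c ≠ c + 1 := by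
  have : Fact (1 < l) := ⟨by omega⟩
  intro h
  have h1 : (1 : ZMod l) = 0 := by
    have h2 : c + 0 = c + 1 := by rw [add_zero]; exact h
    exact (add_left_cancel h2).symm
  exact one_ne_zero h1

theorem al_self (hl : 3 ≤ l) (c : ZMod l) : al c c = 1 := by
  simp only [al, if_true, if_neg (ne_succ hl c), sub_zero]

theorem al_succ (hl : 3 ≤ l) (c : ZMod l) : al c (c + 1) = -1 := by
  simp only [al, if_true, if_neg (ne_succ hl c).symm, zero_sub]

end Comb

section Chr

variable {N l : ℕ} [NeZero l] {q : ℂ}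

/-- the character of `Z(lam)`. -/
abbrev ch1 (N l : ℕ) (q : ℂ) (lam : Fin (N + 1) → ZMod l) : A N l q →ₗ[ℂ] ℂ := chiL (Zl q lam)

theorem chm_apply (m : ZMod l → ℤ) (x : A N l q) :
    chm N l q m x = ∑ lam : Fin (N + 1) → ZMod l,
      if Pool.Agent.Helper19.SQ.ty lam = m then ch1 N l q lam x else 0 := by
  rw [chm, LinearMap.sum_apply]
  refine Finset.sum_congr rfl fun lam _ => ?_
  split <;> rfl

/-- characters and blocks. -/
theorem ch1_blk (hCHI : S_CHI) {hl : l ≠ 0} {s : ℕ → ℂˣ} {D : Dl N l q}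
    {C : Core (A N l q) (Fin (N + 1)) l} (hS : Sett N l q hl s D C)
    (mu : Fin (N + 1) → ZMod l) (m : ZMod l → ℤ) (x : A N l q) :
    ch1 N l q mu (x * C.e m) =
      if Pool.Agent.Helper19.SQ.ty mu = m then ch1 N l q mu x else 0 := by
  have h := hCHI N l q hl s D C hS mu
  split
  · rename_i e
    rw [← e]
    exact h.blk x
  · rename_i e
    have h1 := h.blk (x * C.e m)
    rw [mul_assoc, C.e_orth _ _ (Ne.symm e), mul_zero, map_zero] at h1
    exact h1.symm

/-- the reindexing for `E`. -/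
theorem sum_E (m : ZMod l → ℤ) (c : ZMod l) (g : (Fin (N + 1) → ZMod l) → ℂ)
    (hPar : Par N l q) (hTYP : S_TYP) :
    (∑ lam : Fin (N + 1) → ZMod l, if Pool.Agent.Helper19.SQ.ty lam = m then
      ∑ j, (if Pool.Agent.Helper19.SQ.ty (subE lam j) = m + al c then g (subE lam j) else 0)
      else 0)
    = ((m c + 1 : ℤ) : ℂ) * ∑ mu : Fin (N + 1) → ZMod l,
      if Pool.Agent.Helper19.SQ.ty mu = m + al c then g mu else 0 := by
  have h1 : ∀ lam : Fin (N + 1) → ZMod l, (if Pool.Agent.Helper19.SQ.ty lam = m then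
      ∑ j, (if Pool.Agent.Helper19.SQ.ty (subE lam j) = m + al c then g (subE lam j) else 0)
      else 0) = ∑ j, (fun mu => if Pool.Agent.Helper19.SQ.ty (addE mu j) = m then
        (if Pool.Agent.Helper19.SQ.ty mu = m + al c then g mu else 0) else 0) (eqE j lam) := by
    intro lam
    by_cases h : Pool.Agent.Helper19.SQ.ty lam = m
    · rw [if_pos h]
      refine Finset.sum_congr rfl fun j _ => ?_
      change _ = if Pool.Agent.Helper19.SQ.ty (addE (subE lam j) j) = m then
        (if Pool.Agent.Helper19.SQ.ty (subE lam j) = m + al c then g (subE lam j) else 0) else 0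
      rw [addE_subE, if_pos h]
    · rw [if_neg h]
      symm
      refine Finset.sum_eq_zero fun j _ => ?_
      change (if Pool.Agent.Helper19.SQ.ty (addE (subE lam j) j) = m then
        (if Pool.Agent.Helper19.SQ.ty (subE lam j) = m + al c then g (subE lam j) else 0) else 0)
          = 0
      rw [addE_subE, if_neg h]
  rw [Finset.sum_congr rfl fun lam _ => h1 lam, Finset.sum_comm]
  refine (Finset.sum_congr rfl fun j _ => Equiv.sum_comp (eqE j)
    (fun mu => if Pool.Agent.Helper19.SQ.ty (addE mu j) = m then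
        (if Pool.Agent.Helper19.SQ.ty mu = m + al c then g mu else 0) else 0)).trans ?_
  rw [Finset.sum_comm, Finset.mul_sum]
  refine Finset.sum_congr rfl fun mu _ => ?_
  by_cases h : Pool.Agent.Helper19.SQ.ty mu = m + al c
  · rw [if_pos h]
    obtain ⟨_, h2, _, h4, _⟩ := hTYP N l q hPar mu
    have h5 : ∀ j, (Pool.Agent.Helper19.SQ.ty (addE mu j) = m) ↔ xl mu j = c := by
      intro j
      rw [h2 j, h]
      constructor
      · intro e
        apply h4
        have : m + al c - al (xl mu j) = m + al c - al c := by rw [e, add_sub_cancel_right]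
        exact sub_right_injective this
      · intro e
        rw [e, add_sub_cancel_right]
    have h6 : ∀ j, (if Pool.Agent.Helper19.SQ.ty (addE mu j) = m then g mu else 0)
        = if xl mu j = c then g mu else 0 := fun j => if_congr (h5 j) rfl rfl
    rw [Finset.sum_congr rfl fun j _ => h6 j, ← Finset.sum_filter, Finset.sum_const,
      nsmul_eq_mul]
    have h7 : Pool.Agent.Helper19.SQ.ty mu c = m c + 1 := by
      rw [h, Pi.add_apply, al_self hPar.h3]
    rw [← h7]
    simp only [Pool.Agent.Helper19.SQ.ty]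
    push_cast
    rfl
  · simp only [if_neg h, ite_self, Finset.sum_const_zero, mul_zero]

/-- the reindexing for `F`. -/
theorem sum_F (m : ZMod l → ℤ) (c : ZMod l) (g : (Fin (N + 1) → ZMod l) → ℂ)
    (hPar : Par N l q) (hTYP : S_TYP) :
    (∑ lam : Fin (N + 1) → ZMod l, if Pool.Agent.Helper19.SQ.ty lam = m then
      ∑ j, (if Pool.Agent.Helper19.SQ.ty (addE lam j) = m - al c then g (addE lam j) else 0)
      else 0)
    = ((m (c + 1) + 1 : ℤ) : ℂ) * ∑ mu : Fin (N + 1) → ZMod l,
      if Pool.Agent.Helper19.SQ.ty mu = m - al c then g mu else 0 := by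
  have h1 : ∀ lam : Fin (N + 1) → ZMod l, (if Pool.Agent.Helper19.SQ.ty lam = m then
      ∑ j, (if Pool.Agent.Helper19.SQ.ty (addE lam j) = m - al c then g (addE lam j) else 0)
      else 0) = ∑ j, (fun mu => if Pool.Agent.Helper19.SQ.ty (subE mu j) = m then
        (if Pool.Agent.Helper19.SQ.ty mu = m - al c then g mu else 0) else 0)
          ((eqE j).symm lam) := by
    intro lam
    by_cases h : Pool.Agent.Helper19.SQ.ty lam = m
    · rw [if_pos h]
      refine Finset.sum_congr rfl fun j _ => ?_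
      change _ = if Pool.Agent.Helper19.SQ.ty (subE (addE lam j) j) = m then
        (if Pool.Agent.Helper19.SQ.ty (addE lam j) = m - al c then g (addE lam j) else 0) else 0
      rw [subE_addE, if_pos h]
    · rw [if_neg h]
      symm
      refine Finset.sum_eq_zero fun j _ => ?_
      change (if Pool.Agent.Helper19.SQ.ty (subE (addE lam j) j) = m then
        (if Pool.Agent.Helper19.SQ.ty (addE lam j) = m - al c then g (addE lam j) else 0) else 0)
          = 0
      rw [subE_addE, if_neg h]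
  rw [Finset.sum_congr rfl fun lam _ => h1 lam, Finset.sum_comm]
  refine (Finset.sum_congr rfl fun j _ => Equiv.sum_comp (eqE j).symm
    (fun mu => if Pool.Agent.Helper19.SQ.ty (subE mu j) = m then
        (if Pool.Agent.Helper19.SQ.ty mu = m - al c then g mu else 0) else 0)).trans ?_
  rw [Finset.sum_comm, Finset.mul_sum]
  refine Finset.sum_congr rfl fun mu _ => ?_
  by_cases h : Pool.Agent.Helper19.SQ.ty mu = m - al c
  · rw [if_pos h]
    obtain ⟨_, _, h3, h4, _⟩ := hTYP N l q hPar mu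
    have h5 : ∀ j, (Pool.Agent.Helper19.SQ.ty (subE mu j) = m) ↔ xl mu j = c + 1 := by
      intro j
      rw [h3 j, h]
      constructor
      · intro e
        have h8 : al (xl mu j - 1) = al c := by
          have : m - al c + al (xl mu j - 1) = m - al c + al c := by rw [e, sub_add_cancel]
          exact add_left_cancel this
        rw [← h4 _ _ h8, sub_add_cancel]
      · intro e
        rw [e, add_sub_cancel_right, sub_add_cancel]
    have h6 : ∀ j, (if Pool.Agent.Helper19.SQ.ty (subE mu j) = m then g mu else 0)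
        = if xl mu j = c + 1 then g mu else 0 := fun j => if_congr (h5 j) rfl rfl
    rw [Finset.sum_congr rfl fun j _ => h6 j, ← Finset.sum_filter, Finset.sum_const,
      nsmul_eq_mul]
    have h7 : Pool.Agent.Helper19.SQ.ty mu (c + 1) = m (c + 1) + 1 := by
      rw [h, Pi.sub_apply, al_succ hPar.h3, sub_neg_eq_add]
    rw [← h7]
    simp only [Pool.Agent.Helper19.SQ.ty]
    push_cast
    rfl
  · simp only [if_neg h, ite_self, Finset.sum_const_zero, mul_zero]

/-- the weight `lam_j = c + j` has the type `n delta_c`. -/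
theorem ty_st (c : ZMod l) : Pool.Agent.Helper19.SQ.ty
    (fun j : Fin (N + 1) => c + ((j : ℕ) : ZMod l))
      = fun x => if x = c then ((N : ℤ) + 1) else 0 := by
  funext x
  simp only [Pool.Agent.Helper19.SQ.ty, xl, add_sub_cancel_right]
  by_cases h : x = c
  · rw [if_pos h]
    subst h
    simp
  · rw [if_neg h]
    have : ¬ c = x := fun e => h e.symm
    simp [this]

end Chr

/-- CHM. -/
theorem sCHM (hCHI : S_CHI) (hCHX : S_CHX) (hCH2 : S_CH2) (hCH3 : S_CH3) (hTYP : S_TYP)
    (hPCX : S_PCX) (hOPB : S_OPB) (hDPV : S_DPV) (hDP2 : S_DP2) (hHARM : S_HARM)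
    (hZUNIV : S_ZUNIV) : S_CHM := by
  intro N l _ q hl s D C hS K hK hp1 hp2
  have hPar := hS.par
  have hql : q ^ l = 1 := hPar.prim.pow_eq_one
  have hZfd : ∀ lam : Fin (N + 1) → ZMod l, FiniteDimensional ℂ (Zl (N := N) q lam) :=
    fun lam => (hZUNIV N l q hPar hS.fd lam).1
  -- (5)
  have h5 : ∀ m, IsTrz C 1 m (chm N l q m) := by
    intro m
    rw [← mem_Tm, chm]
    refine Submodule.sum_mem _ fun lam _ => ?_
    split
    · rename_i e
      rw [mem_Tm, ← e]
      exact hCHI N l q hl s D C hS lam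
    · exact Submodule.zero_mem _
  obtain ⟨_, _, hP3, _, _⟩ := hPCX l q hPar.prim hPar.odd K C.pc hp1 hp2
  have hcomm : ∀ (g : Polynomial ℂ) a, pev g C.X * C.δ a = C.δ a * pev g C.X :=
    fun g a => pev_comm (C.Xδ a) g
  have hnil : ∀ (c : ZMod l) (r : ℕ), 0 < r → pev (C.pc c * yc q c ^ r) C.X ^ K = 0 := by
    intro c r hr
    rw [← pev_pow]
    exact pev_of_dvd hK (dvd_pow_pc c _ hr (qz_ne_zero hql _) (hP3 c))
  obtain ⟨hdp, _, _, _⟩ := hDP2 _ _ C.toCore0
  obtain ⟨hd1, hd2, hd3, _⟩ := hDPV _ _ C.δ C.ε hdp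
  -- (1)
  have h1 : ∀ m c r, 0 < r →
      Ecr C q c r (chm N l q m) = 0 ∧ Fcr C q c r (chm N l q m) = 0 := by
    intro m c r hr
    constructor
    · refine LinearMap.ext fun x => ?_
      rw [Ecr, EO_apply, chm_apply, LinearMap.zero_apply]
      refine Finset.sum_eq_zero fun lam _ => ?_
      split
      · have := hZfd lam
        refine hCHX N l q C.ε (Zl q lam) (vv C.ε (pev (C.pc c * yc q c ^ r) C.X)) ?_ ?_ x
        · exact hd1 _ (hcomm _)
        · refine ⟨K, ?_⟩
          rw [← vv_pow C.δ C.ε hd2 hd3 _ (hcomm _), hnil c r hr, vv_zero]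
      · rfl
    · refine LinearMap.ext fun x => ?_
      rw [Fcr, FO_apply, chm_apply, LinearMap.zero_apply]
      refine Finset.sum_eq_zero fun lam _ => ?_
      split
      · have := hZfd lam
        exact hCHX N l q C.δ (Zl q lam) (pev (C.pc c * yc q c ^ r) C.X) (hcomm _)
          ⟨K, hnil c r hr⟩ x
      · rfl
  -- (2)
  have h2 : ∀ m c, Ecr C q c 0 (chm N l q m)
      = ((m c + 1 : ℤ) : ℂ) • chm N l q (m + al c) := by
    intro m c
    obtain ⟨_, _, _, _, ⟨_, hE⟩, _⟩ := hOPB _ _ l C c m _ (h5 m)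
    rw [Ecr, pow_zero, mul_one, hE]
    refine LinearMap.ext fun x => ?_
    rw [Et_apply, LinearMap.smul_apply, chm_apply, chm_apply, smul_eq_mul,
      ← sum_E m c (fun mu => ch1 N l q mu x) hPar hTYP]
    refine Finset.sum_congr rfl fun lam _ => ?_
    split
    · have h6 : ch1 N l q lam (Matrix.trace (C.ε (x * C.e (m + al c))))
          = ∑ j, ch1 N l q (subE lam j) (x * C.e (m + al c)) := by
        rw [hS.c0.ε]
        exact hCH2 N l q D hPar lam _
      rw [h6]
      exact Finset.sum_congr rfl fun j _ => ch1_blk hCHI hS _ _ _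
    · rfl
  -- (3)
  have h3 : ∀ m c, Fcr C q c 0 (chm N l q m)
      = ((m (c + 1) + 1 : ℤ) : ℂ) • chm N l q (m - al c) := by
    intro m c
    obtain ⟨_, _, _, _, ⟨hF, _⟩, _⟩ := hOPB _ _ l C c m _ (h5 m)
    rw [Fcr, pow_zero, mul_one, hF]
    refine LinearMap.ext fun x => ?_
    rw [Ft_apply, LinearMap.smul_apply, chm_apply, chm_apply, smul_eq_mul,
      ← sum_F m c (fun mu => ch1 N l q mu x) hPar hTYP]
    refine Finset.sum_congr rfl fun lam _ => ?_
    split
    · have h6 : ch1 N l q lam (Matrix.trace (C.δ (x * C.e (m - al c))))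
          = ∑ j, ch1 N l q (addE lam j) (x * C.e (m - al c)) := by
        rw [hS.c0.δ]
        exact hCH3 N l q D hPar lam _
      rw [h6]
      exact Finset.sum_congr rfl fun j _ => ch1_blk hCHI hS _ _ _
    · rfl
  refine ⟨h1, h2, h3, ?_, h5⟩
  -- (4)
  intro c h0
  have h7 := LinearMap.congr_fun h0 (1 : A N l q)
  rw [chm_apply, LinearMap.zero_apply] at h7
  have h8 : ∀ lam : Fin (N + 1) → ZMod l,
      (if Pool.Agent.Helper19.SQ.ty lam = (fun x => if x = c then ((N : ℤ) + 1) else 0)
        then ch1 N l q lam 1 else 0)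
      = (((if Pool.Agent.Helper19.SQ.ty lam = (fun x => if x = c then ((N : ℤ) + 1) else 0)
        then dZ (N := N) q lam else 0 : ℕ)) : ℂ) := by
    intro lam
    have := hZfd lam
    split
    · exact chi_one (Zl q lam)
    · simp
  rw [Finset.sum_congr rfl fun lam _ => h8 lam, ← Nat.cast_sum, Nat.cast_eq_zero,
    Finset.sum_eq_zero_iff] at h7
  have h9 := h7 (fun j : Fin (N + 1) => c + ((j : ℕ) : ZMod l)) (Finset.mem_univ _)
  rw [if_pos (ty_st c)] at h9
  exact absurd h9 ((hHARM N l q D hPar).2 _).ne'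

end

end Pool.Agent.Helper48.SQ
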