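import Pool.Agent.Helper41.SQ.GoalsN

/-!
Project SQ (MP_bb32d1_al), stage B, part N: the goal SIDE.
-/

set_option autoImplicit false
set_option linter.unusedSectionVars false
set_option maxHeartbeats 400000

namespace Pool.Agent.Helper48.SQN

noncomputable section

open Matrix Pool.Agent.Helper19.SQ Pool.Agent.Helper34.SQ Pool.Agent.Helper41.SQ

/-- the monomial with only the first variable. -/
theorem mono_first {B : Type*} [Monoid B] (X : ℕ → B) (k j : ℕ) :
    mono X (fun i => if i = 0 then k else 0) (j + 1) = X 0 ^ k := by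
  unfold mono
  induction j with
  | zero => simp [run]
  | succ j ih =>
    rw [run_succ, ih]
    simp

/-- the closure functional at a level. -/
def cl {A : Type} [Ring A] [Algebra ℂ A] {κ : Type} [Fintype κ] [DecidableEq κ]
    (τ : A →ₗ[ℂ] ℂ) (M : Matrix κ κ A) : Matrix κ κ A →ₗ[ℂ] ℂ :=
  τ ∘ₗ Matrix.traceLinearMap κ ℂ A ∘ₗ LinearMap.mulRight ℂ M

theorem cl_apply {A : Type} [Ring A] [Algebra ℂ A] {κ : Type} [Fintype κ] [DecidableEq κ]
    (τ : A →ₗ[ℂ] ℂ) (M Z : Matrix κ κ A) : cl τ M Z = τ (Matrix.trace (Z * M)) := rfl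

/-- SIDE. -/
theorem n_side (hCOC : S_COC) (hTOW : S_TOW) (hCLF : S_CLF) (hPOL : S_POL) (hSGE : S_SGE) :
    S_SIDE := by
  intro A _ _ ι _ _ S l e types h β hB τ m htr hm h0 j k x
  have hs : ∀ p i, sge S τ (fun j => e (m + (j + 1) • β)) j p i (S.z k p i * x) =
      sge S τ (fun _ => 1) j p i (S.z k p i * (x * e (m + (j + 1) • β))) := by
    intro p i
    rw [hSGE A ι S l e types h β hB τ m hm j p i (S.z k p i * x), mul_assoc]
  have hs2 : ∑ p, ∑ i, sge S τ (fun j => e (m + (j + 1) • β)) j p i (S.z k p i * x) =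
      ∑ p, ∑ i, sge S τ (fun _ => 1) j p i (S.z k p i * (x * e (m + (j + 1) • β))) :=
    Finset.sum_congr rfl fun p _ => Finset.sum_congr rfl fun i _ => hs p i
  rw [hs2, hCLF A ι S τ j k (x * e (m + (j + 1) • β))]
  have hT := hTOW A ι S (j + 1)
  have key := hCOC (Matrix (tow S (j + 1)).κ (tow S (j + 1)).κ A)
    (cl τ ((tow S (j + 1)).H (x * e (m + (j + 1) • β))))
    (Subalgebra.centralizer ℂ (Set.range (tow S (j + 1)).H)) S.w (j + 1)
    (tow S (j + 1)).X (tow S (j + 1)).R hT.rel S.w_ne (by omega)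
    (by
      intro i _
      rw [Subalgebra.mem_centralizer_iff]
      rintro _ ⟨a, rfl⟩
      exact (hT.cX i a).symm)
    (by
      intro i _
      rw [Subalgebra.mem_centralizer_iff]
      rintro _ ⟨a, rfl⟩
      exact (hT.cR i a).symm)
    (by
      intro a ha b _
      rw [Subalgebra.mem_centralizer_iff] at ha
      have h1 := ha _ ⟨x * e (m + (j + 1) • β), rfl⟩
      rw [cl_apply, cl_apply, mul_assoc, trace_comm_of_tr htr, mul_assoc, mul_assoc, h1])
    (by
      intro i hi
      exact hT.inv i hi)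
    (by
      intro k'
      rw [cl_apply]
      exact hPOL A ι S l e types h β hB τ m hm h0 j k' x)
    (fun i => if i = 0 then k else 0)
  rw [mono_first, cl_apply] at key
  exact key

end

end Pool.Agent.Helper48.SQN
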